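import Pool.Agent.KneserBridge.Cor

set_option autoImplicit false

namespace Pool.Agent.Results.MP_16e5ec_co.Bridge

/-- Kneser's weighted multiplicity inequality holds for every contraction `p → q` and all radii
`ρ i` for which there are vectors `r i` of length `ρ i`, in a Euclidean space of any dimension,
with `dist (q i) (q j) ≤ dist (r i) (r j) ≤ dist (p i) (p j)` for all `i`, `j`. -/
theorem result :
    ∀ (d n N : ℕ) (p q : Fin n → EuclideanSpace ℝ (Fin d))
      (r : Fin n → EuclideanSpace ℝ (Fin N)) (ρ τ : Fin n → ℝ),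
      (∀ i, 0 < ρ i) →
      (∀ i, ‖r i‖ = ρ i) →
      (∀ i j, dist (q i) (q j) ≤ dist (r i) (r j)) →
      (∀ i j, dist (r i) (r j) ≤ dist (p i) (p j)) →
      Antitone τ →
      ∑ k : Fin n, τ k *
          (MeasureTheory.volume
            {x : EuclideanSpace ℝ (Fin d) |
              k.val + 1 ≤ (Finset.univ.filter (fun i => dist x (q i) ≤ ρ i)).card}).toReal
        ≤ ∑ k : Fin n, τ k *
          (MeasureTheory.volume
            {x : EuclideanSpace ℝ (Fin d) |
              k.val + 1 ≤ (Finset.univ.filter (fun i => dist x (p i) ≤ ρ i)).card}).toReal := by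
  intro d n N p q r ρ τ _ hr hq hp hτ
  exact Pool.Agent.KneserBridge.weighted_bridge p q r ρ τ hr hq hp hτ

end Pool.Agent.Results.MP_16e5ec_co.Bridge
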