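import Pool.Agent.Kneser.Congruent

set_option autoImplicit false

namespace Pool.Agent.Results.MP_16e5ec_co.ExpandingPath

open Pool.Agent.Kneser

/-- Kneser's weighted multiplicity inequality holds whenever a congruent copy of `q` can be moved
to a congruent copy of `p` inside `ℝ^(d + 2)` along a path that is continuous on `[0, 1]`,
continuously differentiable on `(0, 1)`, and along which no pairwise distance decreases. -/
theorem result :
    ∀ (d n : ℕ) (p q : Fin n → EuclideanSpace ℝ (Fin d)) (ρ τ : Fin n → ℝ)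
      (P W : ℝ → Fin n → EuclideanSpace ℝ (Fin (d + 2))),
      (∀ i j, dist (P 0 i) (P 0 j) = dist (q i) (q j)) →
      (∀ i j, dist (P 1 i) (P 1 j) = dist (p i) (p j)) →
      (∀ i, ContinuousOn (fun t => P t i) (Set.Icc 0 1)) →
      (∀ t ∈ Set.Ioo (0 : ℝ) 1, ∀ i, HasDerivAt (fun s => P s i) (W t i) t) →
      (∀ i, ContinuousOn (fun t => W t i) (Set.Ioo 0 1)) →
      (∀ i j, MonotoneOn (fun t => dist (P t i) (P t j)) (Set.Icc 0 1)) →
      (∀ i, 0 < ρ i) →
      Antitone τ →
      ∑ k : Fin n, τ k *
          (MeasureTheory.volume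
            {x : EuclideanSpace ℝ (Fin d) |
              k.val + 1 ≤ (Finset.univ.filter (fun i => dist x (q i) ≤ ρ i)).card}).toReal
        ≤ ∑ k : Fin n, τ k *
          (MeasureTheory.volume
            {x : EuclideanSpace ℝ (Fin d) |
              k.val + 1 ≤ (Finset.univ.filter (fun i => dist x (p i) ≤ ρ i)).card}).toReal := by
  intro d n p q ρ τ P W h0 h1 hc hd hW hm hρ hτ
  refine weighted_of_path' ?_ p q ρ τ (fun i => (hρ i).le) hτ h0 h1 hc hd hW hm
  rw [finrank_euclideanSpace_fin, finrank_euclideanSpace_fin]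

end Pool.Agent.Results.MP_16e5ec_co.ExpandingPath
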