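import Pool.Agent.KneserLine.Final

set_option autoImplicit false

namespace Pool.Agent.Results.MP_16e5ec_co.LocalRank

/-- The vector `(1, p k, q k, ‖p k‖ ^ 2 - ρ k ^ 2, ‖q k‖ ^ 2 - ρ k ^ 2)`. -/
noncomputable def vec {d n : ℕ} (p q : Fin n → EuclideanSpace ℝ (Fin d)) (ρ : Fin n → ℝ)
    (k : Fin n) : ℝ × EuclideanSpace ℝ (Fin d) × EuclideanSpace ℝ (Fin d) × ℝ × ℝ :=
  (1, p k, q k, ‖p k‖ ^ 2 - ρ k ^ 2, ‖q k‖ ^ 2 - ρ k ^ 2)

/-- The set of indices `k` such that the three closed balls with centres `q i`, `q j`, `q k` and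
radii `ρ i`, `ρ j`, `ρ k` have a common point. -/
def near {d n : ℕ} (q : Fin n → EuclideanSpace ℝ (Fin d)) (ρ : Fin n → ℝ) (i j : Fin n) :
    Set (Fin n) :=
  {k | (Metric.closedBall (q i) (ρ i) ∩ Metric.closedBall (q j) (ρ j) ∩
    Metric.closedBall (q k) (ρ k)).Nonempty}

/-- The dimension of the span of the vectors `vec p q ρ k`, `k ∈ near q ρ i j`. -/
noncomputable def localRank {d n : ℕ} (p q : Fin n → EuclideanSpace ℝ (Fin d)) (ρ : Fin n → ℝ)
    (i j : Fin n) : ℕ :=
  Module.finrank ℝ (Submodule.span ℝ (vec p q ρ '' near q ρ i j))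

/-- The volume of the set of points lying in at least `k` of the closed balls with centres `p i`
and radii `ρ i`. -/
noncomputable def covered {d n : ℕ} (p : Fin n → EuclideanSpace ℝ (Fin d)) (ρ : Fin n → ℝ)
    (k : ℕ) : ℝ :=
  (MeasureTheory.volume {x : EuclideanSpace ℝ (Fin d) |
    k ≤ (Finset.univ.filter (fun i => dist x (p i) ≤ ρ i)).card}).toReal

/-- Kneser's weighted multiplicity inequality holds for every contraction in `ℝ ^ d` such that, for
every pair `i, j` whose distance strictly decreases, the vectors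
`(1, p k, q k, ‖p k‖ ^ 2 - ρ k ^ 2, ‖q k‖ ^ 2 - ρ k ^ 2)` with `k ∈ near q ρ i j` span a space of
dimension at most `d + 5`. In particular it holds for at most `d + 5` balls, and for any number of
balls if, for any two of the balls with centres `q i`, at most `d + 3` further balls meet their
intersection. -/
theorem result :
    ∀ (d n : ℕ) (p q : Fin n → EuclideanSpace ℝ (Fin d)) (ρ τ : Fin n → ℝ),
      (∀ i j, dist (q i) (q j) ≤ dist (p i) (p j)) →
      (∀ i, 0 < ρ i) →
      (∀ i j, dist (q i) (q j) < dist (p i) (p j) → localRank p q ρ i j ≤ d + 5) →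
      Antitone τ →
      ∑ k : Fin n, τ k * covered q ρ (k.val + 1) ≤
        ∑ k : Fin n, τ k * covered p ρ (k.val + 1) := by
  intro d n p q ρ τ h hρ hloc hτ
  exact Pool.Agent.KneserLine.weighted_line p q ρ τ h (fun i => (hρ i).le)
    (by rw [finrank_euclideanSpace_fin]; exact hloc) hτ

end Pool.Agent.Results.MP_16e5ec_co.LocalRank
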