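import Pool.Agent.KneserPoly.Thin

set_option autoImplicit false

namespace Pool.Agent.Results.MP_16e5ec_co.Polynomial

/-- Kneser's weighted multiplicity inequality holds, for all nonnegative nonincreasing weights and
all radii, up to a factor that is polynomial in the dimension. -/
theorem result :
    ∀ (d n : ℕ) (p q : Fin n → EuclideanSpace ℝ (Fin d)) (ρ τ : Fin n → ℝ),
      1 ≤ d →
      (∀ i j, dist (q i) (q j) ≤ dist (p i) (p j)) →
      (∀ i, 0 < ρ i) →
      Antitone τ →
      (∀ i, 0 ≤ τ i) →
      ∑ k : Fin n, τ k *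
          (MeasureTheory.volume
            {x : EuclideanSpace ℝ (Fin d) |
              k.val + 1 ≤ (Finset.univ.filter (fun i => dist x (q i) ≤ ρ i)).card}).toReal
        ≤ 2 ^ 54 * (d : ℝ) ^ 12 * ∑ k : Fin n, τ k *
          (MeasureTheory.volume
            {x : EuclideanSpace ℝ (Fin d) |
              k.val + 1 ≤ (Finset.univ.filter (fun i => dist x (p i) ≤ ρ i)).card}).toReal := by
  intro d n p q ρ τ hd hpq hρ hτ hτ0
  exact Pool.Agent.KneserPoly.weighted_poly hd p q hpq hρ hτ hτ0

end Pool.Agent.Results.MP_16e5ec_co.Polynomial
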